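import Mathlib

/-!
# Abel-Jacobi maps and the hard Lefschetz theorem
-/

set_option autoImplicit false

namespace Pool.Agent.K6.H18.AHL

variable {W J : Type*} [AddCommGroup W] [Module ℚ W] [AddCommGroup J] [Module ℚ J]

/-- The Abel-Jacobi maps of a smooth projective variety of dimension `n` which satisfies the
standard conjecture of Lefschetz type. `W` is the direct sum of the spaces `Cyc i` of homologically
trivial cycles of codimension `i` with rational coefficients, `J` that of the intermediate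
Jacobians `Jac i`, attached to the cohomology in degree `2 * i - 1`, tensored with `ℚ`, `AJ` is the
Abel-Jacobi map and `L`, `LJ` are the Lefschetz operators. If `k = n - (2 * i - 1) ≥ 0` then `LJ ^ k` is
injective on `Jac i`, and there is an algebraic correspondence, acting as `lam` on cycles and as
`lamJ` on the Jacobians, which gives a right inverse of `LJ ^ k : Jac i → Jac (i + k)`. -/
structure LefschetzType (n : ℕ) (Cyc : ℤ → Submodule ℚ W) (Jac : ℤ → Submodule ℚ J)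
    (L : W →ₗ[ℚ] W) (LJ : J →ₗ[ℚ] J) (AJ : W →ₗ[ℚ] J) : Prop where
  maps (i : ℤ) (x : W) : x ∈ Cyc i → L x ∈ Cyc (i + 1)
  maps_AJ (i : ℤ) (x : W) : x ∈ Cyc i → AJ x ∈ Jac i
  comm (x : W) : AJ (L x) = LJ (AJ x)
  injective (i : ℤ) (k : ℕ) : (k : ℤ) = n - (2 * i - 1) →
    ∀ ξ ∈ Jac i, (LJ ^ k) ξ = 0 → ξ = 0
  inverse (i : ℤ) (k : ℕ) : (k : ℤ) = n - (2 * i - 1) → ∃ (lam : W →ₗ[ℚ] W) (lamJ : J →ₗ[ℚ] J),
    (∀ y ∈ Cyc (i + k), lam y ∈ Cyc i) ∧ (∀ y, AJ (lam y) = lamJ (AJ y)) ∧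
    ∀ ξ ∈ Jac (i + k), (LJ ^ k) (lamJ ξ) = ξ

/-- The Abel-Jacobi map is injective in codimension `i`. -/
def InjectiveAt (Cyc : ℤ → Submodule ℚ W) (AJ : W →ₗ[ℚ] J) (i : ℤ) : Prop :=
  ∀ x ∈ Cyc i, AJ x = 0 → x = 0

variable {n : ℕ} {Cyc : ℤ → Submodule ℚ W} {Jac : ℤ → Submodule ℚ J}
  {L : W →ₗ[ℚ] W} {LJ : J →ₗ[ℚ] J} {AJ : W →ₗ[ℚ] J}

lemma LefschetzType.comm_pow (h : LefschetzType n Cyc Jac L LJ AJ) (k : ℕ) (x : W) :
    AJ ((L ^ k) x) = (LJ ^ k) (AJ x) := by
  induction k with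
  | zero => simp
  | succ k ih => rw [pow_succ', pow_succ', Module.End.mul_apply, Module.End.mul_apply, h.comm, ih]

lemma LefschetzType.maps_pow (h : LefschetzType n Cyc Jac L LJ AJ) (k : ℕ) : ∀ (i : ℤ) (x : W),
    x ∈ Cyc i → (L ^ k) x ∈ Cyc (i + k) := by
  induction k with
  | zero => intro i x hx; simpa using hx
  | succ k ih =>
    intro i x hx
    rw [pow_succ, Module.End.mul_apply]
    have h1 := ih (i + 1) (L x) (h.maps i x hx)
    have h2 : i + 1 + (k : ℤ) = i + ((k + 1 : ℕ) : ℤ) := by push_cast; ring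
    rwa [h2] at h1

/-- The Abel-Jacobi maps are injective in all codimensions if and only if they are in the lower
half and the homologically trivial cycles in the upper half come from the lower half by the
Lefschetz operator. -/
theorem injectiveAt_iff (h : LefschetzType n Cyc Jac L LJ AJ) :
    (∀ i, InjectiveAt Cyc AJ i) ↔
      (∀ i : ℤ, 2 * i ≤ n + 1 → InjectiveAt Cyc AJ i) ∧
      ∀ (i : ℤ) (k : ℕ), (k : ℤ) = n + 1 - 2 * i →
        ∀ y ∈ Cyc (i + k), ∃ x ∈ Cyc i, (L ^ k) x = y := by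
  constructor
  · intro hinj
    refine ⟨fun i _ => hinj i, fun i k hk y hy => ?_⟩
    obtain ⟨lam, lamJ, h1, h2, h3⟩ := h.inverse i k (by rw [hk]; ring)
    refine ⟨lam y, h1 y hy, ?_⟩
    rw [← sub_eq_zero]
    refine hinj (i + k) _ (Submodule.sub_mem _ (h.maps_pow k i _ (h1 y hy)) hy) ?_
    rw [map_sub, h.comm_pow, h2, h3 _ (h.maps_AJ _ _ hy), sub_self]
  · rintro ⟨hlow, hsur⟩ i
    by_cases hi : 2 * i ≤ n + 1
    · exact hlow i hi
    · intro y hy h0
      obtain ⟨k, hk⟩ := Int.eq_ofNat_of_zero_le (show (0 : ℤ) ≤ n + 1 - 2 * (n + 1 - i) by omega)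
      have e1 : (n : ℤ) + 1 - i + k = i := by rw [← hk]; ring
      obtain ⟨x, hx, rfl⟩ := hsur (n + 1 - i) k hk.symm y (by rwa [e1])
      rw [h.comm_pow] at h0
      have h1 := h.injective (n + 1 - i) k (by rw [← hk]; ring) _ (h.maps_AJ _ _ hx) h0
      rw [hlow _ (by omega) x hx h1, map_zero]

end Pool.Agent.K6.H18.AHL
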