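import Mathlib

/-!
# Homologically trivial cycles on a variety with a Lefschetz-Künneth decomposition
-/

set_option autoImplicit false

namespace Pool.Agent.K6.H18.AHL

variable {W : Type*} [AddCommGroup W] [Module ℚ W]

/-- `W` is the space of homologically trivial cycles with rational coefficients on a smooth
projective variety of dimension `n`, `L` is the Lefschetz operator, and `W` is the direct sum of the
subspaces `A i s`, where `A i s` is the part of codimension `i` of the component of degree
`j = 2 * i - s` of the motive. The operator `L` maps `A i s` to `A (i + 1) s`, the codimensions are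
between `1` and `n`, and for `k = n - j ≥ 0` the power `L ^ k` is a bijection from `A i s` to
`A (i + k) s`, the component of degree `2 * n - j`. -/
structure LefschetzKunneth (n : ℕ) (A : ℤ → ℤ → Submodule ℚ W) (L : W →ₗ[ℚ] W) : Prop where
  internal : DirectSum.IsInternal (fun p : ℤ × ℤ => A p.1 p.2)
  maps (i s : ℤ) (x : W) : x ∈ A i s → L x ∈ A (i + 1) s
  bounded (i s : ℤ) : (i < 1 ∨ (n : ℤ) < i) → A i s = ⊥
  injective (i s : ℤ) (k : ℕ) : (k : ℤ) = n - (2 * i - s) →
    ∀ x ∈ A i s, (L ^ k) x = 0 → x = 0
  surjective (i s : ℤ) (k : ℕ) : (k : ℤ) = n - (2 * i - s) →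
    ∀ y ∈ A (i + k) s, ∃ x ∈ A i s, (L ^ k) x = y

/-- The homologically trivial cycles of codimension `i`. -/
def cod (A : ℤ → ℤ → Submodule ℚ W) (i : ℤ) : Submodule ℚ W := ⨆ s : ℤ, A i s

/-- The arithmetic hard Lefschetz theorem conjectured by Beilinson: for all `i` such that
`k = n + 1 - 2 * i ≥ 0` the power `L ^ k` is a bijection from the homologically trivial cycles of
codimension `i` to those of codimension `n + 1 - i = i + k`. -/
def ArithmeticHardLefschetz (n : ℕ) (A : ℤ → ℤ → Submodule ℚ W) (L : W →ₗ[ℚ] W) : Prop :=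
  ∀ (i : ℤ) (k : ℕ), (k : ℤ) = n + 1 - 2 * i →
    (∀ x ∈ cod A i, (L ^ k) x = 0 → x = 0) ∧
    ∀ y ∈ cod A (i + k), ∃ x ∈ cod A i, (L ^ k) x = y

end Pool.Agent.K6.H18.AHL
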