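import Pool.Agent.K6.H18.AHL.Main

/-!
# The arithmetic Hodge index theorem and the vanishing of components
-/

set_option autoImplicit false

namespace Pool.Agent.K6.H18.AHL

variable {W : Type*} [AddCommGroup W] [Module ℚ W]

/-- The height pairing `B` is compatible with the Künneth decomposition: the component of codimension
`i` and degree `2 * i - s` is orthogonal to the component of codimension `n + 1 - i` and degree
`2 * (n + 1 - i) - t` unless the two degrees have the sum `2 * n`, that is, `s + t = 2`. -/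
def Orthogonal (n : ℕ) (A : ℤ → ℤ → Submodule ℚ W) (B : W →ₗ[ℚ] W →ₗ[ℚ] ℝ) : Prop :=
  ∀ i s t : ℤ, s + t ≠ 2 → ∀ x ∈ A i s, ∀ y ∈ A (n + 1 - i) t, B x y = 0

/-- The arithmetic Hodge index theorem conjectured by Beilinson: if `k = n + 1 - 2 * i ≥ 0` and the
homologically trivial cycle `x ≠ 0` of codimension `i` is primitive, `(L ^ (k + 1)) x = 0`, then
`(-1) ^ i` times the height pairing of `x` and `(L ^ k) x` is positive. -/
def ArithmeticHodgeIndex (n : ℕ) (A : ℤ → ℤ → Submodule ℚ W) (L : W →ₗ[ℚ] W)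
    (B : W →ₗ[ℚ] W →ₗ[ℚ] ℝ) : Prop :=
  ∀ (i : ℤ) (k : ℕ), (k : ℤ) = n + 1 - 2 * i → ∀ x ∈ cod A i, x ≠ 0 → (L ^ (k + 1)) x = 0 →
    0 < (-1 : ℝ) ^ i * B x ((L ^ k) x)

variable {n : ℕ} {A : ℤ → ℤ → Submodule ℚ W} {L : W →ₗ[ℚ] W} {B : W →ₗ[ℚ] W →ₗ[ℚ] ℝ}

lemma prim_zero (h : LefschetzKunneth n A L) (ho : Orthogonal n A B)
    (hQ : ArithmeticHodgeIndex n A L B) {i s : ℤ} {k : ℕ} (hs : s ≤ 0)
    (hk : (k : ℤ) = n + 1 - 2 * i) {x : W} (hx : x ∈ A i s) (h0 : (L ^ (k + 1)) x = 0) : x = 0 := by
  by_contra hne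
  have h1 := hQ i k hk x (le_cod i s hx) hne h0
  have h2 := pow_maps h k i s x hx
  have e1 : i + (k : ℤ) = n + 1 - i := by rw [hk]; ring
  rw [e1] at h2
  rw [ho i s s (by omega) x hx _ h2, mul_zero] at h1
  exact lt_irrefl _ h1

lemma hodge_above (h : LefschetzKunneth n A L) (ho : Orthogonal n A B)
    (hQ : ArithmeticHodgeIndex n A L B) {s : ℤ} (hs : s ≤ 0) (m : ℕ) : ∀ c : ℤ,
    (n : ℤ) < c + m → (n : ℤ) ≤ 2 * c - s → A c s = ⊥ := by
  induction m with
  | zero => exact fun c hc _ => h.bounded c s (Or.inr (by simpa using hc))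
  | succ m ih =>
    intro c hc hcn
    have h1 : A (c + 1) s = ⊥ := ih (c + 1) (by push_cast at hc; omega) (by omega)
    obtain ⟨k, hk⟩ := Int.eq_ofNat_of_zero_le (show (0 : ℤ) ≤ 2 * c - s - n by omega)
    obtain ⟨l, hl⟩ := Int.eq_ofNat_of_zero_le (show (0 : ℤ) ≤ -s by omega)
    have e1 : (n : ℤ) + s - c + k = c := by rw [← hk]; ring
    rw [Submodule.eq_bot_iff]
    intro y hy
    obtain ⟨x, hx, rfl⟩ := h.surjective (n + s - c) s k (by rw [← hk]; ring) y (by rwa [e1])
    have h2 : L ((L ^ k) x) = 0 := by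
      have h3 := h.maps c s _ hy
      rwa [h1, Submodule.mem_bot] at h3
    have h3 : (L ^ (k + 1 + l + 1)) x = 0 := by
      rw [show k + 1 + l + 1 = (l + 1) + (1 + k) by ring, pow_add, pow_add (n := k), pow_one,
        Module.End.mul_apply, Module.End.mul_apply, h2, map_zero]
    have h4 : x = 0 := by
      refine prim_zero h ho hQ (k := k + 1 + l) hs ?_ hx h3
      push_cast
      rw [← hk, ← hl]
      ring
    rw [h4, map_zero]

lemma hodge_bot (h : LefschetzKunneth n A L) (ho : Orthogonal n A B)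
    (hQ : ArithmeticHodgeIndex n A L B) {s : ℤ} (hs : s ≤ 0) (i : ℤ) : A i s = ⊥ := by
  by_cases hi : (n : ℤ) ≤ 2 * i - s
  · exact hodge_above h ho hQ hs (n + 1 - i).toNat i (by omega) hi
  · obtain ⟨k, hk⟩ := Int.eq_ofNat_of_zero_le (show (0 : ℤ) ≤ n - (2 * i - s) by omega)
    have h1 : A (i + k) s = ⊥ :=
      hodge_above h ho hQ hs (n + 1 - (i + k)).toNat _ (by omega) (by omega)
    rw [Submodule.eq_bot_iff]
    intro x hx
    have h2 := pow_maps h k _ _ x hx
    rw [h1, Submodule.mem_bot] at h2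
    exact h.injective i s k hk.symm x hx h2

/-- The projections on the components. -/
lemma exists_proj (h : LefschetzKunneth n A L) :
    ∃ π : ℤ × ℤ → W → W, (∀ p x, π p x ∈ A p.1 p.2) ∧ (∀ p x y, π p (x + y) = π p x + π p y) ∧
      (∀ p q x, x ∈ A p.1 p.2 → p ≠ q → π q x = 0) ∧
      (∀ q x, (∀ p, p ≠ q → π p x = 0) → x = π q x) ∧
      ∀ (i s : ℤ) (k : ℕ) x, (L ^ k) x = 0 → (L ^ k) (π (i, s) x) = 0 := by
  classical
  let _ := h.internal.chooseDecomposition
  let π : ℤ × ℤ → W → W := fun p x => (DirectSum.decompose (fun p : ℤ × ℤ => A p.1 p.2) x p : W)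
  have hadd : ∀ p x x', π p (x + x') = π p x + π p x' := fun p x x' => by
    simp [π]
  have hzero : ∀ p, π p 0 = 0 := fun p => by simp [π]
  refine ⟨π, fun p x => (DirectSum.decompose (fun p : ℤ × ℤ => A p.1 p.2) x p).2, hadd,
    fun p q x hx hpq => DirectSum.decompose_of_mem_ne (ℳ := fun p : ℤ × ℤ => A p.1 p.2) hx hpq,
    ?_, ?_⟩
  · intro q x hx
    conv_lhs => rw [← DirectSum.sum_support_decompose (fun p : ℤ × ℤ => A p.1 p.2) x]
    by_cases hq : q ∈ (DirectSum.decompose (fun p : ℤ × ℤ => A p.1 p.2) x).support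
    · exact Finset.sum_eq_single_of_mem q hq fun p _ hp => hx p hp
    · have h1 : π q x = 0 := by
        have h2 := DFinsupp.notMem_support_iff.1 hq
        change ((DirectSum.decompose (fun p : ℤ × ℤ => A p.1 p.2) x q : A q.1 q.2) : W) = 0
        rw [h2]
        rfl
      rw [h1]
      refine Finset.sum_eq_zero fun p hp => hx p ?_
      rintro rfl
      exact hq hp
  · intro i s k x hx
    have key : ∀ z : W, π (i + k, s) ((L ^ k) z) = (L ^ k) (π (i, s) z) := by
      intro z
      induction z using DirectSum.Decomposition.inductionOn (fun p : ℤ × ℤ => A p.1 p.2) with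
      | zero => rw [map_zero, hzero, hzero, map_zero]
      | @homogeneous p m =>
        have hm := pow_maps h k p.1 p.2 m m.2
        by_cases hp : p = (i, s)
        · subst hp
          have e1 : π (i + k, s) ((L ^ k) m) = (L ^ k) m :=
            DirectSum.decompose_of_mem_same (ℳ := fun p : ℤ × ℤ => A p.1 p.2) (i := (i + k, s)) hm
          have e2 : π (i, s) m = m :=
            DirectSum.decompose_of_mem_same (ℳ := fun p : ℤ × ℤ => A p.1 p.2) (i := (i, s)) m.2
          rw [e1, e2]
        · have e1 : π (i + k, s) ((L ^ k) m) = 0 :=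
            DirectSum.decompose_of_mem_ne (ℳ := fun p : ℤ × ℤ => A p.1 p.2)
              (i := (p.1 + k, p.2)) (j := (i + k, s)) hm (by
                intro he
                apply hp
                simp only [Prod.mk.injEq, add_left_inj] at he
                exact Prod.ext he.1 he.2)
          have e2 : π (i, s) m = 0 :=
            DirectSum.decompose_of_mem_ne (ℳ := fun p : ℤ × ℤ => A p.1 p.2)
              (i := p) (j := (i, s)) m.2 hp
          rw [e1, e2, map_zero]
      | add a b ha hb => rw [map_add, hadd, hadd, map_add, ha, hb]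
    rw [← key, hx, hzero]

/-- The arithmetic Hodge index theorem holds if and only if the components with `s ≤ 0` vanish and
it holds for the component with `s = 1`. -/
theorem arithmeticHodgeIndex_iff (h : LefschetzKunneth n A L) (ho : Orthogonal n A B) :
    ArithmeticHodgeIndex n A L B ↔ (∀ i s : ℤ, s ≤ 0 → A i s = ⊥) ∧
      ∀ (i : ℤ) (k : ℕ), (k : ℤ) = n + 1 - 2 * i → ∀ x ∈ A i 1, x ≠ 0 → (L ^ (k + 1)) x = 0 →
        0 < (-1 : ℝ) ^ i * B x ((L ^ k) x) := by
  constructor
  · intro hQ
    exact ⟨fun i s hs => hodge_bot h ho hQ hs i, fun i k hk x hx => hQ i k hk x (le_cod i 1 hx)⟩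
  · rintro ⟨hv, hp⟩ i k hk x hx hne h0
    refine hp i k hk x ?_ hne h0
    obtain ⟨π, hmem, hadd, hoff, hself, hL⟩ := exists_proj h
    have hzero : ∀ p, π p 0 = 0 := fun p => by
      have := hadd p 0 0
      rwa [add_zero, left_eq_add] at this
    have h1 : ∀ p : ℤ × ℤ, p.1 ≠ i → ∀ y ∈ cod A i, π p y = 0 := by
      intro p hpi y hy
      induction hy using Submodule.iSup_induction' with
      | mem s y hy => exact hoff (i, s) p y hy (fun h2 => hpi (by rw [← h2]))
      | zero => exact hzero p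
      | add y z _ _ hy hz => rw [hadd, hy, hz, add_zero]
    rw [hself (i, 1) x ?_]
    · exact hmem (i, 1) x
    · intro p hpq
      by_cases hpi : p.1 = i
      · obtain ⟨j, s⟩ := p
        obtain rfl : j = i := hpi
        have hs1 : s ≠ 1 := fun h2 => hpq (by rw [h2])
        have h2 := hmem (j, s) x
        rcases lt_or_gt_of_ne hs1 with h3 | h3
        · have h4 : A j s = ⊥ := hv j s (by omega)
          change π (j, s) x ∈ A j s at h2
          rwa [h4, Submodule.mem_bot] at h2
        · obtain ⟨l, hl⟩ := Int.eq_ofNat_of_zero_le (show (0 : ℤ) ≤ s - 2 by omega)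
          refine h.injective j s (k + 1 + l) ?_ _ h2 ?_
          · push_cast
            rw [hk, ← hl]
            ring
          · rw [add_comm (k + 1) l, pow_add, Module.End.mul_apply, hL j s (k + 1) x h0, map_zero]
      · exact h1 p hpi x hx

end Pool.Agent.K6.H18.AHL
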