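import Pool.Agent.K6.H18.AHL.Defs

/-!
# The arithmetic hard Lefschetz theorem and the vanishing of components: proofs
-/

set_option autoImplicit false

namespace Pool.Agent.K6.H18.AHL

variable {W : Type*} [AddCommGroup W] [Module ℚ W] {n : ℕ} {A : ℤ → ℤ → Submodule ℚ W}
  {L : W →ₗ[ℚ] W}

lemma pow_maps (h : LefschetzKunneth n A L) (k : ℕ) : ∀ (i s : ℤ) (x : W), x ∈ A i s →
    (L ^ k) x ∈ A (i + k) s := by
  induction k with
  | zero => intro i s x hx; simpa using hx
  | succ k ih =>
    intro i s x hx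
    rw [pow_succ, Module.End.mul_apply]
    have h1 := ih (i + 1) s (L x) (h.maps i s x hx)
    have h2 : i + 1 + (k : ℤ) = i + ((k + 1 : ℕ) : ℤ) := by push_cast; ring
    rwa [h2] at h1

/-- A lifting of an element of one component may be taken in this component. -/
lemma lift_component (h : LefschetzKunneth n A L) {i s : ℤ} {k : ℕ} {y : W}
    (hy : y ∈ A (i + k) s) {x : W} (hxy : (L ^ k) x = y) :
    ∃ x' ∈ A i s, (L ^ k) x' = y := by
  classical
  let _ := h.internal.chooseDecomposition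
  let π : ℤ × ℤ → W → W := fun p x => (DirectSum.decompose (fun p : ℤ × ℤ => A p.1 p.2) x p : W)
  have hadd : ∀ p x x', π p (x + x') = π p x + π p x' := fun p x x' => by
    simp [π]
  have hzero : ∀ p, π p 0 = 0 := fun p => by simp [π]
  have key : ∀ z : W, π (i + k, s) ((L ^ k) z) = (L ^ k) (π (i, s) z) := by
    intro z
    induction z using DirectSum.Decomposition.inductionOn (fun p : ℤ × ℤ => A p.1 p.2) with
    | zero => rw [map_zero, hzero, hzero, map_zero]
    | @homogeneous p m =>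
      have hm := pow_maps h k p.1 p.2 m m.2
      by_cases hp : p = (i, s)
      · subst hp
        have e1 : π (i + k, s) ((L ^ k) m) = (L ^ k) m :=
          DirectSum.decompose_of_mem_same (ℳ := fun p : ℤ × ℤ => A p.1 p.2) (i := (i + k, s)) hm
        have e2 : π (i, s) m = m :=
          DirectSum.decompose_of_mem_same (ℳ := fun p : ℤ × ℤ => A p.1 p.2) (i := (i, s)) m.2
        rw [e1, e2]
      · have e1 : π (i + k, s) ((L ^ k) m) = 0 :=
          DirectSum.decompose_of_mem_ne (ℳ := fun p : ℤ × ℤ => A p.1 p.2)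
            (i := (p.1 + k, p.2)) (j := (i + k, s)) hm (by
              intro he
              apply hp
              simp only [Prod.mk.injEq, add_left_inj] at he
              exact Prod.ext he.1 he.2)
        have e2 : π (i, s) m = 0 :=
          DirectSum.decompose_of_mem_ne (ℳ := fun p : ℤ × ℤ => A p.1 p.2)
            (i := p) (j := (i, s)) m.2 hp
        rw [e1, e2, map_zero]
    | add a b ha hb => rw [map_add, hadd, hadd, map_add, ha, hb]
  refine ⟨π (i, s) x, (DirectSum.decompose (fun p : ℤ × ℤ => A p.1 p.2) x (i, s)).2, ?_⟩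
  rw [← key, hxy]
  exact DirectSum.decompose_of_mem_same (ℳ := fun p : ℤ × ℤ => A p.1 p.2) (i := (i + k, s)) hy

lemma le_cod (i s : ℤ) : A i s ≤ cod A i := le_iSup (fun s => A i s) s

/-- The Lefschetz operator is injective below the middle. -/
lemma L_inj (h : LefschetzKunneth n A L) {i s : ℤ} (hi : 2 * i - s < n) {x : W} (hx : x ∈ A i s)
    (h0 : L x = 0) : x = 0 := by
  obtain ⟨k, hk⟩ := Int.eq_ofNat_of_zero_le (show (0 : ℤ) ≤ n - (2 * i - s) by omega)
  obtain ⟨k', rfl⟩ : ∃ k', k = k' + 1 := ⟨k - 1, by omega⟩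
  refine h.injective i s (k' + 1) (by rw [← hk]) x hx ?_
  rw [pow_succ, Module.End.mul_apply, h0, map_zero]

/-- Injectivity of the powers of the Lefschetz operator which stay below the middle. -/
lemma eq_bot_of_le (h : LefschetzKunneth n A L) {s : ℤ} (m : ℕ) : ∀ {i : ℤ},
    2 * (i + m) - s ≤ n → A (i + m) s = ⊥ → A i s = ⊥ := by
  induction m with
  | zero => intro i _ h0; simpa using h0
  | succ m ih =>
    intro i hi h0
    have e : i + ((m + 1 : ℕ) : ℤ) = i + 1 + m := by push_cast; ring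
    rw [e] at hi h0
    have h1 := ih hi h0
    rw [Submodule.eq_bot_iff]
    intro x hx
    have h2 := h.maps i s x hx
    rw [h1, Submodule.mem_bot] at h2
    exact L_inj h (by omega) hx h2

/-- The arithmetic hard Lefschetz theorem for the single components. -/
lemma comp_surj (h : LefschetzKunneth n A L) (hQ : ArithmeticHardLefschetz n A L) {i s : ℤ} {k : ℕ}
    (hk : (k : ℤ) = n + 1 - 2 * i) (h0 : A i s = ⊥) : A (i + k) s = ⊥ := by
  rw [Submodule.eq_bot_iff]
  intro y hy
  obtain ⟨x, _, hx⟩ := (hQ i k hk).2 y (le_cod _ _ hy)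
  obtain ⟨x', hx', hy'⟩ := lift_component h hy hx
  rw [h0, Submodule.mem_bot] at hx'
  rw [← hy', hx', map_zero]

lemma bot_of_large (h : LefschetzKunneth n A L) (hQ : ArithmeticHardLefschetz n A L) {s : ℤ}
    (hs : 2 ≤ s) (m : ℕ) : ∀ i : ℤ, i ≤ m → 2 * i ≤ n + 1 → A i s = ⊥ := by
  induction m with
  | zero => exact fun i hi _ => h.bounded i s (Or.inl (by omega))
  | succ m ih =>
    intro i hi hin
    by_cases hi1 : i < 1
    · exact h.bounded i s (Or.inl hi1)
    have h1 : A (i - 1) s = ⊥ := ih (i - 1) (by push_cast at hi; omega) (by omega)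
    obtain ⟨k, hk⟩ := Int.eq_ofNat_of_zero_le (show (0 : ℤ) ≤ n + 1 - 2 * (i - 1) by omega)
    have h2 := comp_surj h hQ hk.symm h1
    have e1 : i - 1 + (k : ℤ) = n + 2 - i := by rw [← hk]; ring
    rw [e1] at h2
    by_cases hc : (n : ℤ) + 4 - 2 * i - s ≤ 0
    · obtain ⟨m', hm'⟩ := Int.eq_ofNat_of_zero_le (show (0 : ℤ) ≤ n + 2 - 2 * i by omega)
      have e2 : i + (m' : ℤ) = n + 2 - i := by rw [← hm']; ring
      refine eq_bot_of_le h m' ?_ ?_
      · rw [e2]; omega
      · rw [e2]; exact h2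
    · obtain ⟨k₂, hk₂⟩ := Int.eq_ofNat_of_zero_le (show (0 : ℤ) ≤ n + 4 - 2 * i - s by omega)
      obtain ⟨m', hm'⟩ := Int.eq_ofNat_of_zero_le (show (0 : ℤ) ≤ s - 2 by omega)
      have e2 : i + (m' : ℤ) = i - 2 + s := by rw [← hm']; ring
      have e3 : i - 2 + s + (k₂ : ℤ) = n + 2 - i := by rw [← hk₂]; ring
      refine eq_bot_of_le h m' ?_ ?_
      · rw [e2]; omega
      · rw [e2, Submodule.eq_bot_iff]
        intro x hx
        have h3 := pow_maps h k₂ _ _ x hx
        rw [e3, h2, Submodule.mem_bot] at h3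
        exact h.injective _ s k₂ (by rw [← hk₂]; ring) x hx h3

lemma bot_of_two_le (h : LefschetzKunneth n A L) (hQ : ArithmeticHardLefschetz n A L) {s : ℤ}
    (hs : 2 ≤ s) (i : ℤ) : A i s = ⊥ := by
  by_cases hi : 2 * i ≤ n + 1
  · exact bot_of_large h hQ hs i.toNat i (by omega) hi
  · obtain ⟨k, hk⟩ := Int.eq_ofNat_of_zero_le (show (0 : ℤ) ≤ n + 1 - 2 * (n + 1 - i) by omega)
    have h1 : A (n + 1 - i) s = ⊥ :=
      bot_of_large h hQ hs (n + 1 - i).toNat _ (by omega) (by omega)
    have h2 := comp_surj h hQ hk.symm h1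
    have e1 : (n : ℤ) + 1 - i + k = i := by rw [← hk]; ring
    rwa [e1] at h2

lemma bot_above (h : LefschetzKunneth n A L) (hQ : ArithmeticHardLefschetz n A L) {s : ℤ}
    (hs : s ≤ 0) (m : ℕ) : ∀ c : ℤ, (n : ℤ) < c + m → (n : ℤ) ≤ 2 * c - s → A c s = ⊥ := by
  induction m with
  | zero => exact fun c hc _ => h.bounded c s (Or.inr (by simpa using hc))
  | succ m ih =>
    intro c hc hcn
    have h1 : A (c + 1) s = ⊥ := ih (c + 1) (by push_cast at hc; omega) (by omega)
    obtain ⟨k, hk⟩ := Int.eq_ofNat_of_zero_le (show (0 : ℤ) ≤ 2 * c - s - n by omega)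
    obtain ⟨l, hl⟩ := Int.eq_ofNat_of_zero_le (show (0 : ℤ) ≤ -s by omega)
    have e1 : (n : ℤ) + s - c + k = c := by rw [← hk]; ring
    rw [Submodule.eq_bot_iff]
    intro y hy
    obtain ⟨x, hx, rfl⟩ := h.surjective (n + s - c) s k (by rw [← hk]; ring) y (by rwa [e1])
    have h2 : L ((L ^ k) x) = 0 := by
      have h3 := h.maps c s _ hy
      rwa [h1, Submodule.mem_bot] at h3
    have h3 : (L ^ (k + 1 + l)) x = 0 := by
      rw [show k + 1 + l = l + (1 + k) by ring, pow_add, pow_add, pow_one, Module.End.mul_apply,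
        Module.End.mul_apply, h2, map_zero]
    have h4 : x = 0 := by
      refine (hQ (n + s - c) (k + 1 + l) ?_).1 x (le_cod _ _ hx) h3
      push_cast
      rw [← hk, ← hl]
      ring
    rw [h4, map_zero]

lemma bot_of_nonpos (h : LefschetzKunneth n A L) (hQ : ArithmeticHardLefschetz n A L) {s : ℤ}
    (hs : s ≤ 0) (i : ℤ) : A i s = ⊥ := by
  by_cases hi : (n : ℤ) ≤ 2 * i - s
  · exact bot_above h hQ hs (n + 1 - i).toNat i (by omega) hi
  · obtain ⟨k, hk⟩ := Int.eq_ofNat_of_zero_le (show (0 : ℤ) ≤ n - (2 * i - s) by omega)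
    have h1 : A (i + k) s = ⊥ :=
      bot_above h hQ hs (n + 1 - (i + k)).toNat _ (by omega) (by omega)
    rw [Submodule.eq_bot_iff]
    intro x hx
    have h2 := pow_maps h k _ _ x hx
    rw [h1, Submodule.mem_bot] at h2
    exact h.injective i s k hk.symm x hx h2

/-- The arithmetic hard Lefschetz theorem holds if and only if all components with `s ≠ 1`
vanish. -/
theorem arithmeticHardLefschetz_iff (h : LefschetzKunneth n A L) :
    ArithmeticHardLefschetz n A L ↔ ∀ i s : ℤ, s ≠ 1 → A i s = ⊥ := by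
  constructor
  · intro hQ i s hs
    rcases lt_or_gt_of_ne hs with h1 | h1
    · exact bot_of_nonpos h hQ (by omega) i
    · exact bot_of_two_le h hQ (by omega) i
  · intro hv
    have hc : ∀ i, cod A i = A i 1 := by
      intro i
      refine le_antisymm (iSup_le fun s => ?_) (le_cod i 1)
      by_cases hs : s = 1
      · rw [hs]
      · rw [hv i s hs]
        exact bot_le
    intro i k hk
    rw [hc, hc]
    have hk' : (k : ℤ) = n - (2 * i - 1) := by rw [hk]; ring
    exact ⟨h.injective i 1 k hk', h.surjective i 1 k hk'⟩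

end Pool.Agent.K6.H18.AHL
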